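import Pool.Agent.W559.Et.All
import Pool.Agent.W559.Mg.V7

/-!
MP_b525bf_ag: resolution of the quotients of smooth affine varieties of characteristic `p` by
cyclic groups of order dividing `p ^ 2 * m` whose elements of `p`-power order are linear in etale
coordinates near their fixed points, in particular of the quotients of affine spaces by linear
actions.
-/

set_option autoImplicit false

open AlgebraicGeometry CategoryTheory MvPolynomial Pool.Agent.H920R2

universe u

namespace Pool.Agent.Results.MP_b525bf_ag.LocallyLinearCyclic

section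

variable {k B : Type u} [Field k] [CommRing B] [Algebra k B]

/-- The structure morphism of the spectrum of a subalgebra. -/
noncomputable def str (C : Subalgebra k B) :
    Spec (CommRingCat.of C) ⟶ Spec (CommRingCat.of k) :=
  Spec.map (CommRingCat.ofHom (algebraMap k C))

/-- The spectrum of the subalgebra `C` is a variety and has a resolution of singularities: there
are an integral scheme `Y`, smooth over `k`, and a proper morphism from `Y` to the spectrum which
is an isomorphism over a dense open subset. -/
def IsResolvable (C : Subalgebra k B) : Prop :=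
  IsVariety (str C) ∧
  ∃ (Y : Scheme.{u}) (π : Y ⟶ Spec (CommRingCat.of C)),
    AlgebraicGeometry.IsIntegral Y ∧ AlgebraicGeometry.IsProper π ∧
    AlgebraicGeometry.Smooth (π ≫ str C) ∧
    ∃ U : (Spec (CommRingCat.of C)).Opens, Dense (U : Set (Spec (CommRingCat.of C))) ∧
      IsIso (π ∣_ U)

/-- The algebra of invariants of the endomorphism `ρ`. -/
noncomputable def invariants (ρ : B →ₐ[k] B) : Subalgebra k B := AlgHom.equalizer ρ (AlgHom.id k B)

/-- The endomorphism `ρ` is linear in etale coordinates near its fixed points: for every prime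
ideal `q` with `ρ b - b ∈ q` for all `b` there are an element `f` outside `q` which is fixed by `ρ`
and etale coordinates `y i / f ^ N` on `Spec B[1 / f]` such that the linear span of the `y i` is
mapped to itself by `ρ`. -/
def IsLocallyLinear (ρ : B →ₐ[k] B) : Prop :=
  ∀ q : Ideal B, q.IsPrime → (∀ b, ρ b - b ∈ q) →
    ∃ f : B, f ∉ q ∧ ρ f = f ∧ ∃ (m N : ℕ) (y : Fin m → B),
      ((aeval fun i => algebraMap B (Localization.Away f) (y i) *
          IsLocalization.Away.invSelf f ^ N :
        MvPolynomial (Fin m) k →ₐ[k] Localization.Away f).toRingHom).Etale ∧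
      ∀ i, ρ (y i) ∈ Submodule.span k (Set.range y)

end

/-- The linear substitution `X i ↦ ∑ j, M i j * X j`. -/
noncomputable def linSub {k : Type u} [Field k] {n : ℕ} (M : Matrix (Fin n) (Fin n) k) :
    MvPolynomial (Fin n) k →ₐ[k] MvPolynomial (Fin n) k :=
  aeval fun i => ∑ j, C (M i j) * X j

/-- Let `p` be a prime and `k` a field of characteristic `p` which contains a primitive `m`-th
root of unity. The following quotients are varieties and have a resolution of singularities:

1. the quotient of a smooth affine variety `Spec B` by an automorphism `σ` with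
`σ ^ (p ^ 2 * m) = 1` such that `σ ^ m` and `σ ^ (m * p)` (the generators of the groups of
automorphisms of order `p ^ 2` and `p` generated by powers of `σ`) are linear in etale coordinates
near their fixed points,

2. the quotient of affine `n`-space by a matrix `M` with `M ^ (p ^ 2 * m) = 1`. -/
theorem result (p : ℕ) [Fact p.Prime] (k : Type u) [Field k] [CharP k p] (m : ℕ) (hm : 0 < m)
    (ω : k) (hω : IsPrimitiveRoot ω m) :
    (∀ (B : Type u) [CommRing B] [IsDomain B] [Algebra k B] [Algebra.Smooth k B]
      (σ : B ≃ₐ[k] B), σ ^ (p ^ 2 * m) = 1 →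
      IsLocallyLinear ((σ ^ m : B ≃ₐ[k] B) : B →ₐ[k] B) →
      IsLocallyLinear ((σ ^ (m * p) : B ≃ₐ[k] B) : B →ₐ[k] B) →
      IsResolvable (invariants (σ : B →ₐ[k] B))) ∧
    ∀ (n : ℕ) (M : Matrix (Fin n) (Fin n) k), M ^ (p ^ 2 * m) = 1 →
      IsResolvable (invariants (linSub M)) := by
  have hp : p.Prime := Fact.out
  have hpk : (p : k) = 0 := CharP.cast_eq_zero k p
  refine ⟨?_, ?_⟩
  · intro B _ _ _ _ σ hσ h1 h2
    exact Pool.Agent.W559.Et.aff_res hp hpk hm hω Pool.Agent.W559.Et.affMain' B σ hσ h1 h2
  · intro n M hM
    exact ⟨isVariety_linInv' M (p ^ 2 * m) (Nat.mul_pos (pow_pos hp.pos 2) hm) hM,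
      Pool.Agent.W559.Mg.hasRes' hp hpk hm hω M hM⟩

end Pool.Agent.Results.MP_b525bf_ag.LocallyLinearCyclic
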