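import Pool.Agent.W558.T3.PLF

/-!
MP_b525bf_ag: resolution of the affine varieties whose function field is generated over the
function field `E` of a surface (or of a threefold, with log smooth models as a hypothesis) by
finite-dimensional subspaces `V 0, ..., V (n - 1)`, with a complete system of relations which are
sums of products of elements of the `V s` with degrees independent modulo `p`, and whose coordinate
ring is generated by such products. Examples: the irreducible components of complete intersections
in `S × 𝔸^n` (`S` an affine surface) whose equations are sums of monomials; the abelian covers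
`y i ^ m i = c i * l i 1 * ... * l i (a i)` of `S × 𝔸^n` with `m i` prime to `p` and with linear
forms `l i j` over the function field of `S`; the inseparable covers `y ^ p = c * l 1 * ... * l a`
and the Artin-Schreier covers `y ^ p - y = c * l 1 * ... * l a` with `a` prime to `p`.

Team: helper558 (log resolution, assembly), helper418 (linear forms), helpers 973, 63, 417, 655,
498, 923, 22 and others; built on the library of helpers 920, 968, 918, 165, 473.
-/

set_option autoImplicit false

open AlgebraicGeometry CategoryTheory Pool.Agent.W558

universe u

namespace Pool.Agent.Results.MP_b525bf_ag.ProductsOfLinearForms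

/-- The degree modulo `p` of a product of `d s` elements of `V s` for all `s` and of the powers
`f l ^ e l`, where `f l` has the degree `deg l`. -/
def degree {p n r : ℕ} (deg : Fin r → Fin n → ZMod p) (d : Fin n → ℕ) (e : Fin r → ℕ) :
    Fin n → ZMod p :=
  fun s => d s + ∑ l, e l * deg l s

/-- Let `k` be a perfect field of characteristic `p`, `E` the function field of a smooth projective
surface over `k`, or an extension of `k` such that any finite family of nonzero elements of `E` has
its zeros and poles in a simple normal crossings divisor on some smooth projective variety with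
function field `E` (`HasLogModels`), and `K` a field extension of `E` which is generated by
finite-dimensional `E`-subspaces `V 0, ..., V (n - 1)`. Let `f 0, ..., f (r - 1)` be elements of
`K` such that each `f j` is a sum of terms, where a term is the product of a nonzero element
`c j i` of `E`, of `d j i s` nonzero elements `g j i s t` of `V s` for all `s`, and of powers of
elements `f l ≠ 0` with `l < j`. Give `f j` the degree (in `(ℤ/p)^n`) of its first term, and
suppose that the differences of the degrees of the other terms of `f j` and the degree of `f j`,
for all `j` together, are linearly independent modulo `p`. Suppose that the relations `f j = 0` are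
complete: the transcendence degree of `K` over `E` is the sum of the dimensions of the `V s` minus
the number of indices `j` with `f j = 0`. Let `A` be a `k`-algebra with fraction field `K` which is
generated by finitely many elements of the subgroup of the multiplicative group of `K` generated by
the nonzero elements of `E`, the nonzero elements of the `V s` and the nonzero `f l`. Then the
variety `Spec A` has a resolution of singularities. -/
theorem result (p : ℕ) [Fact p.Prime] (k E K A : Type u) [Field k] [PerfectField k] [CharP k p]
    [Field E] [Algebra k E] (hE : (Algebra.trdeg k E = 2 ∧ HasModel k E) ∨ HasLogModels k E)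
    [Field K] [Algebra E K] [Algebra k K] [IsScalarTower k E K]
    (n : ℕ) (V : Fin n → Submodule E K) [∀ s, FiniteDimensional E (V s)]
    (hgen : IntermediateField.adjoin E (⋃ s, (V s : Set K)) = ⊤)
    (r : ℕ) (ι : Fin r → Type) [∀ j, Fintype (ι j)] (i₀ : ∀ j, ι j)
    (c : ∀ j, ι j → E) (hc : ∀ j i, c j i ≠ 0) (d : ∀ j, ι j → Fin n → ℕ)
    (g : ∀ j i s, Fin (d j i s) → K) (hgV : ∀ j i s t, g j i s t ∈ V s)
    (hg0 : ∀ j i s t, g j i s t ≠ 0) (e : ∀ j, ι j → Fin r → ℕ) (f : Fin r → K)
    (he : ∀ j i l, e j i l ≠ 0 → l < j ∧ f l ≠ 0)
    (hf : ∀ j, f j = ∑ i, algebraMap E K (c j i) * ((∏ s, ∏ t, g j i s t) * ∏ l, f l ^ e j i l))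
    (deg : Fin r → Fin n → ZMod p)
    (hdeg : ∀ j, deg j = degree deg (d j (i₀ j)) (e j (i₀ j)))
    (hind : LinearIndependent (ZMod p) fun q : (j : Fin r) × {i : ι j // i ≠ i₀ j} =>
      degree deg (d q.1 q.2) (e q.1 q.2) - deg q.1)
    (htr : Algebra.trdeg E K + (Nat.card {j // f j = 0} : Cardinal.{u}) =
      ((∑ s, Module.finrank E (V s) : ℕ) : Cardinal.{u}))
    [CommRing A] [IsDomain A] [Algebra k A] [Algebra A K] [IsScalarTower k A K]
    [IsFractionRing A K] (S : Finset Kˣ)
    (hS : ∀ x ∈ S, x ∈ Subgroup.closure {x : Kˣ | (∃ b, algebraMap E K b = x) ∨
      (∃ s, (x : K) ∈ V s) ∨ ∃ l, f l = x})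
    (hA : (IsScalarTower.toAlgHom k A K).range = Algebra.adjoin k (Units.val '' (S : Set Kˣ))) :
    IsResolvableVariety (X := Spec (CommRingCat.of A))
      (Spec.map (CommRingCat.ofHom (algebraMap k A))) :=
  plf_main p k E K A hE n V hgen r ι i₀ c hc d g hgV hg0 e f he hf deg hdeg hind htr S hS hA

end Pool.Agent.Results.MP_b525bf_ag.ProductsOfLinearForms
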