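import Pool.Agent.W558.WD.Asm5

/-!
MP_b525bf_ag: resolution of singularities of the purely inseparable hypersurfaces
`z ^ p = f 1 (x 1, y 1) + ... + f m (x m, y m)` over a perfect field of characteristic `p`, with
arbitrary polynomials `f i` in two variables, in every (even) dimension `2 * m`, and of all affine
varieties of this kind: normalizations, rational functions `f i`, and so on.

The proof: (1) Giraud's theorem on surfaces (normal form `f = a ^ p + x ^ n * h` with nowhere
vanishing logarithmic differential of `x ^ n * h`, after blowing up points), proved here over
perfect fields with the log resolution of surfaces; (2) products and sums: the normal form of the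
sum on a toroidal blowup of the product of the surfaces; (3) the projective line bundle with the
coordinates `(z - a) / x ^ m`, in which the purely inseparable cover is a divisor with an equation
`y ^ p = x ^ c * h`, and a sequence of blowups of codimension two centres `x i = y = 0` and
`x i = x j = 0` after which the strict transform of this divisor is smooth and transversal to the
boundary.

Team of helper558: helpers 578, 349, 191, 85, 64, 924, 52, 216, 177, 462, 932, 411, 499, 337, 372,
193, 150, 978, 930, 327, 376, 32, 902, 417; built on the resolution library of helpers 558, 973,
418, 440, 466, 544, 285, 363, 22, 498, 655, 920, 968, 918, 165, 473 and others.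
-/

set_option autoImplicit false

open AlgebraicGeometry CategoryTheory Pool.Agent.W558

universe u

namespace Pool.Agent.Results.MP_b525bf_ag.PurelyInseparableCovers

/-- Let `k` be a perfect field of characteristic `p`, let `x i 0, x i 1` (`i = 1, ..., m`) be
algebraically independent elements of the field extension `K` of `k`, and let `f i = P i / Q i` be
rational functions in two variables over `k`. Suppose that `K` is generated over `k` by the `x i j`
and an element `z` which is not contained in the field `k(x)` and satisfies
`z ^ p = f 1 (x 1 0, x 1 1) + ... + f m (x m 0, x m 1)`. Let `A` be a finitely generated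
`k`-algebra with fraction field `K` which is integral over the subalgebra generated by finitely many
elements each of which is a product of rational functions in the pairs `x i 0, x i 1`; for example
over the polynomial ring `k[x]`, as is the coordinate ring of the hypersurface
`z ^ p = f 1 + ... + f m` for polynomials `f i`. Then the variety `Spec A` has a resolution of
singularities. -/
theorem result (p : ℕ) [Fact p.Prime] (k K : Type u) [Field k] [PerfectField k] [CharP k p]
    [Field K] [Algebra k K] (m : ℕ) (x : Fin m → Fin 2 → K)
    (P Q : Fin m → MvPolynomial (Fin 2) k) (z : K)
    (hx : AlgebraicIndependent k (fun q : Fin m × Fin 2 => x q.1 q.2)) (hQ : ∀ i, Q i ≠ 0)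
    (hz : z ^ p = ∑ i, MvPolynomial.aeval (x i) (P i) / MvPolynomial.aeval (x i) (Q i))
    (hzx : z ∉ IntermediateField.adjoin k (Set.range fun q : Fin m × Fin 2 => x q.1 q.2))
    (hgen : IntermediateField.adjoin k
      (insert z (Set.range fun q : Fin m × Fin 2 => x q.1 q.2)) = ⊤)
    (A : Type u) [CommRing A] [IsDomain A] [Algebra k A] [Algebra.FiniteType k A] [Algebra A K]
    [IsScalarTower k A K] [IsFractionRing A K] (S : Finset A)
    (hS : ∀ a ∈ S, ∃ F H : Fin m → MvPolynomial (Fin 2) k, (∀ i, F i ≠ 0 ∧ H i ≠ 0) ∧
      algebraMap A K a = ∏ i, MvPolynomial.aeval (x i) (F i) / MvPolynomial.aeval (x i) (H i))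
    (hA : ∀ a : A, IsIntegral (Algebra.adjoin k (S : Set A)) a) :
    IsResolvableVariety (X := Spec (CommRingCat.of A))
      (Spec.map (CommRingCat.ofHom (algebraMap k A))) :=
  wild_resolution p k K m x P Q z hx hQ hz hzx hgen A S hS hA

end Pool.Agent.Results.MP_b525bf_ag.PurelyInseparableCovers
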