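import Pool.Agent.W559.Wr.FinR
import Pool.Agent.W839.Wr.Fin

/-!
MP_b525bf_ag: resolution of the quotients of powers of affine varieties of characteristic `p` by
permutation groups which are obtained from cyclic groups of order dividing `p ^ 2 * m` by direct
and wreath products, in particular by the Sylow `p`-subgroups of the symmetric groups.
-/

set_option autoImplicit false

open AlgebraicGeometry CategoryTheory TensorProduct Pool.Agent.H920R2

universe u

namespace Pool.Agent.Results.MP_b525bf_ag.WreathQuotients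

section

variable {k B : Type u} [Field k] [CommRing B] [Algebra k B]

/-- The structure morphism of the spectrum of a subalgebra. -/
noncomputable def str (C : Subalgebra k B) :
    Spec (CommRingCat.of C) ⟶ Spec (CommRingCat.of k) :=
  Spec.map (CommRingCat.ofHom (algebraMap k C))

/-- The spectrum of the subalgebra `C` is a variety and has a resolution of singularities: there
are an integral scheme `Y`, smooth over `k`, and a proper morphism from `Y` to the spectrum which
is an isomorphism over a dense open subset. -/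
def IsResolvable (C : Subalgebra k B) : Prop :=
  IsVariety (str C) ∧
  ∃ (Y : Scheme.{u}) (π : Y ⟶ Spec (CommRingCat.of C)),
    AlgebraicGeometry.IsIntegral Y ∧ AlgebraicGeometry.IsProper π ∧
    AlgebraicGeometry.Smooth (π ≫ str C) ∧
    ∃ U : (Spec (CommRingCat.of C)).Opens, Dense (U : Set (Spec (CommRingCat.of C))) ∧
      IsIso (π ∣_ U)

end

/-- There is an ideal `(z 0, …, z l)` of `A` whose blowing-up is smooth over `k`: its charts are
the spectra of the algebras `A[z 0 / z i, …, z l / z i]`. -/
def HasSmoothBlowUp (k A : Type u) [Field k] [CommRing A] [IsDomain A] [Algebra k A] : Prop :=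
  ∃ (l : ℕ) (z : Fin (l + 1) → A), (∀ i, z i ≠ 0) ∧ ∀ i, Algebra.Smooth k
    (Algebra.adjoin k (Set.range (algebraMap A (FractionRing A)) ∪ Set.range fun j =>
      algebraMap A (FractionRing A) (z j) / algebraMap A (FractionRing A) (z i)))

/-- The permutation of the factors of the algebra `⨂ A`: it maps `⨂ a_i` to `⨂ a_{π i}`. -/
noncomputable def perm (k A : Type u) [Field k] [CommRing A] [Algebra k A] {n : ℕ}
    (π : Equiv.Perm (Fin n)) : (⨂[k] _ : Fin n, A) →ₐ[k] (⨂[k] _ : Fin n, A) :=
  PiTensorProduct.liftAlgHom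
    ((PiTensorProduct.tprod k : MultilinearMap k (fun _ : Fin n => A) _).domDomCongr π)
    (by
      rw [MultilinearMap.domDomCongr_apply, PiTensorProduct.one_def]
      rfl)
    (by
      intro x y
      rw [MultilinearMap.domDomCongr_apply, MultilinearMap.domDomCongr_apply,
        MultilinearMap.domDomCongr_apply, PiTensorProduct.tprod_mul_tprod]
      rfl)

theorem perm_tprod (k A : Type u) [Field k] [CommRing A] [Algebra k A] {n : ℕ}
    (π : Equiv.Perm (Fin n)) (a : Fin n → A) :
    perm k A π (PiTensorProduct.tprod k a) = PiTensorProduct.tprod k fun i => a (π i) :=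
  PiTensorProduct.lift.tprod a

/-- The algebra of the elements of `⨂ A` which are invariant under the group `P` of permutations
of the factors. -/
noncomputable def invariants (k A : Type u) [Field k] [CommRing A] [Algebra k A] {n : ℕ}
    (P : Subgroup (Equiv.Perm (Fin n))) : Subalgebra k (⨂[k] _ : Fin n, A) :=
  ⨅ π ∈ P, AlgHom.equalizer (perm k A π) (AlgHom.id k _)

theorem mem_invariants {k A : Type u} [Field k] [CommRing A] [Algebra k A] {n : ℕ}
    {P : Subgroup (Equiv.Perm (Fin n))} {x : ⨂[k] _ : Fin n, A} :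
    x ∈ invariants k A P ↔ ∀ π ∈ P, perm k A π x = x := by
  unfold invariants
  simp only [Algebra.mem_iInf]
  rfl

/-- The direct product of two permutation groups, acting on the disjoint union. -/
def directProduct {ι ι' : Type} (P : Subgroup (Equiv.Perm ι)) (P' : Subgroup (Equiv.Perm ι')) :
    Subgroup (Equiv.Perm (ι ⊕ ι')) where
  carrier := {f | ∃ g ∈ P, ∃ g' ∈ P', (∀ i, f (Sum.inl i) = Sum.inl (g i)) ∧
    ∀ i, f (Sum.inr i) = Sum.inr (g' i)}
  mul_mem' := (Pool.Agent.W559.Wr.prodGrp P P').mul_mem'
  one_mem' := (Pool.Agent.W559.Wr.prodGrp P P').one_mem'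
  inv_mem' := (Pool.Agent.W559.Wr.prodGrp P P').inv_mem'

/-- The wreath product of two permutation groups, acting on the product: it consists of the
permutations `(i, j) ↦ (g j (i), h (j))` with all `g j` in `P` and `h` in `P'`. -/
def wreathProduct {ι ι' : Type} (P : Subgroup (Equiv.Perm ι)) (P' : Subgroup (Equiv.Perm ι')) :
    Subgroup (Equiv.Perm (ι × ι')) where
  carrier := {f | ∃ h ∈ P', ∃ g : ι' → Equiv.Perm ι, (∀ j, g j ∈ P) ∧
    ∀ i j, f (i, j) = (g j i, h j)}
  mul_mem' := (Pool.Agent.W559.Wr.wrGrp P P').mul_mem'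
  one_mem' := (Pool.Agent.W559.Wr.wrGrp P P').one_mem'
  inv_mem' := (Pool.Agent.W559.Wr.wrGrp P P').inv_mem'

/-- The permutation groups which are obtained from the cyclic permutation groups generated by
permutations `π` with `π ^ N = 1` by direct products, wreath products and relabelling. -/
inductive IsTower (N : ℕ) : (ι : Type) → Subgroup (Equiv.Perm ι) → Prop
  | cyclic (n : ℕ) (π : Equiv.Perm (Fin n)) (hπ : π ^ N = 1) :
      IsTower N (Fin n) (Subgroup.zpowers π)
  | product (ι ι' : Type) (P : Subgroup (Equiv.Perm ι)) (P' : Subgroup (Equiv.Perm ι')) :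
      IsTower N ι P → IsTower N ι' P' → IsTower N (ι ⊕ ι') (directProduct P P')
  | wreath (ι ι' : Type) (P : Subgroup (Equiv.Perm ι)) (P' : Subgroup (Equiv.Perm ι')) :
      IsTower N ι P → IsTower N ι' P' → IsTower N (ι × ι') (wreathProduct P P')
  | relabel (ι ι' : Type) (f : ι ≃ ι') (P : Subgroup (Equiv.Perm ι)) : IsTower N ι P →
      IsTower N ι' (P.map (f.permCongrHom : Equiv.Perm ι ≃* Equiv.Perm ι').toMonoidHom)

theorem tow_of_tower {N : ℕ} {ι : Type} {P : Subgroup (Equiv.Perm ι)} (h : IsTower N ι P) :
    Pool.Agent.W559.Wr.Tow N ι P := by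
  induction h with
  | cyclic n π hπ => exact Pool.Agent.W559.Wr.Tow.cyc n π hπ
  | product ι ι' P P' _ _ h h' => exact Pool.Agent.W559.Wr.Tow.prod ι ι' P P' h h'
  | wreath ι ι' P P' _ _ h h' => exact Pool.Agent.W559.Wr.Tow.wr ι ι' P P' h h'
  | relabel ι ι' f P _ h => exact Pool.Agent.W559.Wr.Tow.rel ι ι' f P h

/-- A smooth affine variety is a smooth blowing-up of itself. -/
theorem hasSmoothBlowUp_of_smooth (k A : Type u) [Field k] [CommRing A] [IsDomain A] [Algebra k A]
    [Algebra.Smooth k A] : HasSmoothBlowUp k A := by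
  refine ⟨0, fun _ => 1, fun _ => one_ne_zero, fun i => ?_⟩
  have h1 : Algebra.adjoin k (Set.range (algebraMap A (FractionRing A)) ∪
      Set.range fun _ : Fin (0 + 1) => algebraMap A (FractionRing A) 1 /
        algebraMap A (FractionRing A) 1) =
      (IsScalarTower.toAlgHom k A (FractionRing A)).range := by
    apply le_antisymm
    · rw [Algebra.adjoin_le_iff]
      rintro _ (⟨a, rfl⟩ | ⟨_, rfl⟩)
      · exact ⟨a, rfl⟩
      · exact ⟨1, by simp⟩
    · rintro _ ⟨a, rfl⟩
      exact Algebra.subset_adjoin (Or.inl ⟨a, rfl⟩)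
  rw [h1]
  have hinj : Function.Injective (IsScalarTower.toAlgHom k A (FractionRing A)) :=
    IsFractionRing.injective A (FractionRing A)
  exact Algebra.Smooth.of_equiv (AlgEquiv.ofInjective _ hinj)

lemma spmr_of_blowUp {k A : Type u} [Field k] [CommRing A] [IsDomain A] [Algebra k A]
    (h : HasSmoothBlowUp k A) : Pool.Agent.W559.Wr.SPMR k (FractionRing A)
      (IsScalarTower.toAlgHom k A (FractionRing A)).range := by
  obtain ⟨l, z, hz, hsm⟩ := h
  refine ⟨l, fun i => algebraMap A (FractionRing A) (z i), fun i => ?_, fun i => ?_, ?_⟩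
  · intro h
    exact hz i ((map_eq_zero_iff _ (IsFractionRing.injective A (FractionRing A))).1 h)
  · have h1 := hsm i
    rw [Algebra.adjoin_union] at h1
    have h2 : Algebra.adjoin k (Set.range (algebraMap A (FractionRing A))) =
        (IsScalarTower.toAlgHom k A (FractionRing A)).range := by
      apply le_antisymm
      · rw [Algebra.adjoin_le_iff]
        rintro _ ⟨a, rfl⟩
        exact ⟨a, rfl⟩
      · rintro _ ⟨a, rfl⟩
        exact Algebra.subset_adjoin ⟨a, rfl⟩
    rw [h2] at h1
    exact h1
  · rw [eq_top_iff]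
    intro x _
    obtain ⟨a, b, hb, rfl⟩ := IsFractionRing.div_surjective (A := A) x
    apply div_mem
    · exact IntermediateField.subset_adjoin k _ (Or.inl ⟨a, rfl⟩)
    · exact IntermediateField.subset_adjoin k _ (Or.inl ⟨b, rfl⟩)

/-- Let `p` be a prime, `k` a field of characteristic `p` and `W = Spec A` an affine variety over
`k` which has a resolution of singularities by the blowing-up of an ideal, for instance a smooth
affine variety. Let `P` be a group of permutations of `1, …, n`, and suppose that

* `P` is a Sylow `p`-subgroup of the symmetric group, or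
* `P` is obtained by direct products and wreath products from cyclic permutation groups of orders
  dividing `p ^ 2 * m`, and `k` contains a primitive `m`-th root of unity.

If the power `W ^ n` is integral, for instance if `k` is algebraically closed, then its quotient
by the group `P` of permutations of the factors is a variety and has a resolution of
singularities. -/
theorem result (p : ℕ) [Fact p.Prime] (k : Type u) [Field k] [CharP k p] (A : Type u)
    [CommRing A] [IsDomain A] [Algebra k A] [Algebra.FiniteType k A] (hA : HasSmoothBlowUp k A) (n : ℕ)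
    (hdom : IsAlgClosed k ∨ IsDomain (⨂[k] _ : Fin n, A)) (P : Subgroup (Equiv.Perm (Fin n)))
    (hP : (∃ S : Sylow p (Equiv.Perm (Fin n)), P = S) ∨
      ∃ (m : ℕ) (ω : k), 0 < m ∧ IsPrimitiveRoot ω m ∧ IsTower (p ^ 2 * m) (Fin n) P) :
    IsResolvable (invariants k A P) := by
  have hp : p.Prime := Fact.out
  have hpk : (p : k) = 0 := CharP.cast_eq_zero k p
  have hdomB : IsDomain (⨂[k] _ : Fin n, A) := by
    rcases hdom with h | h
    · exact isDomain_pi n fun _ => A
    · exact h
  have hQ : Pool.Agent.W559.Wr.QQR k (Fin n) P := by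
    rcases hP with ⟨S, rfl⟩ | ⟨m, ω, hm, hω, hT⟩
    · exact Pool.Agent.W559.Wr.sylR' k p hpk n S
    · have h1 := tow_of_tower hT
      rw [pow_two] at h1
      exact Pool.Agent.W559.Wr.qqR_of_tow hp hpk (Pool.Agent.W559.Et.cast_ne hm hω) ⟨ω, hω⟩ h1 _
  have hj := isCoprod_pi (k := k) (A := fun _ : Fin n => A)
  have hcomp : ∀ π π' : Equiv.Perm (Fin n), π * π' = 1 →
      (perm k A π).comp (perm k A π') = AlgHom.id k _ := by
    intro π π' h
    apply hj.ext
    intro i a
    change perm k A π (perm k A π' (PiTensorProduct.tprod k (MonoidHom.mulSingle _ i a))) =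
      PiTensorProduct.tprod k (MonoidHom.mulSingle _ i a)
    rw [perm_tprod, perm_tprod]
    congr 1
    funext l
    have h1 : π' (π l) = l := by
      have h2 : π' * π = 1 := by
        rw [mul_eq_one_iff_eq_inv] at h ⊢
        rw [h, inv_inv]
      exact congrArg (fun s : Equiv.Perm (Fin n) => s l) h2
    rw [h1]
  let s : Equiv.Perm (Fin n) → ((⨂[k] _ : Fin n, A) ≃ₐ[k] (⨂[k] _ : Fin n, A)) := fun π =>
    AlgEquiv.ofAlgHom (perm k A π) (perm k A π⁻¹) (hcomp _ _ (mul_inv_cancel π))
      (hcomp _ _ (inv_mul_cancel π))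
  have hs : ∀ π i a, s π (PiTensorProduct.singleAlgHom (R := k) (A := fun _ : Fin n => A) i a) =
      PiTensorProduct.singleAlgHom (R := k) (A := fun _ : Fin n => A) (π⁻¹ i) a := by
    intro π i a
    change perm k A π (PiTensorProduct.tprod k (MonoidHom.mulSingle _ i a)) =
      PiTensorProduct.tprod k (MonoidHom.mulSingle _ (π⁻¹ i) a)
    rw [perm_tprod]
    congr 1
    funext l
    rw [MonoidHom.mulSingle_apply, MonoidHom.mulSingle_apply]
    by_cases hl : l = π⁻¹ i
    · have h1 : π l = i := by
        rw [hl]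
        exact Equiv.apply_symm_apply π i
      rw [h1, hl, Pi.mulSingle_eq_same, Pi.mulSingle_eq_same]
    · rw [Pi.mulSingle_eq_of_ne hl, Pi.mulSingle_eq_of_ne]
      intro h
      apply hl
      rw [← h]
      exact (Equiv.symm_apply_apply π l).symm
  have hS : ∀ x, x ∈ invariants k A P ↔
      ∀ σ : (⨂[k] _ : Fin n, A) ≃ₐ[k] (⨂[k] _ : Fin n, A), (∃ g ∈ P, ∀ i a,
      σ (PiTensorProduct.singleAlgHom (R := k) (A := fun _ : Fin n => A) i a) =
      PiTensorProduct.singleAlgHom (R := k) (A := fun _ : Fin n => A) (g i) a) → σ x = x := by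
    intro x
    rw [mem_invariants]
    constructor
    · rintro hx σ ⟨g, hg, h⟩
      have h1 : ((σ : (⨂[k] _ : Fin n, A) ≃ₐ[k] (⨂[k] _ : Fin n, A)) :
          (⨂[k] _ : Fin n, A) →ₐ[k] (⨂[k] _ : Fin n, A)) = perm k A g⁻¹ := by
        apply hj.ext
        intro i a
        change σ (PiTensorProduct.singleAlgHom (R := k) (A := fun _ : Fin n => A) i a) =
          s g⁻¹ (PiTensorProduct.singleAlgHom (R := k) (A := fun _ : Fin n => A) i a)
        rw [h, hs, inv_inv]
      have h2 := hx g⁻¹ (P.inv_mem hg)
      rw [← h1] at h2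
      exact h2
    · intro hx π hπ
      exact hx (s π) ⟨π⁻¹, P.inv_mem hπ, hs π⟩
  have hft : Algebra.FiniteType k (invariants k A P) :=
    Pool.Agent.W559.Wr.finiteType_inv P _ hS
  exact ⟨isVariety_spec, Pool.Agent.W839.Wr.finR Pool.Agent.W591.WRR.resol k A
    (spmr_of_blowUp hA) n P hQ _ hS⟩

end Pool.Agent.Results.MP_b525bf_ag.WreathQuotients
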